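import Mathlib

/-!
# MP_654ec6_gt: the definitions of the statement

Noncollapsed four-dimensional Ricci limit spaces, tangent cones, and the set of points at which
some tangent cone has a cross-section which is not homeomorphic to the three-sphere.
-/

open scoped Manifold ContDiff Topology Bundle ENNReal
open Filter Bundle

namespace Pool.Agent.W_MP_654ec6

/-- Euclidean four-space. -/
abbrev E4 : Type := EuclideanSpace ℝ (Fin 4)

/-- The `i`-th vector of the standard basis. -/
noncomputable def bv (i : Fin 4) : E4 := EuclideanSpace.single i 1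

/-- Matrix valued functions on `ℝ⁴` (the coefficients of Riemannian metrics in coordinates). -/
abbrev Met : Type := E4 → Matrix (Fin 4) (Fin 4) ℝ

/-- Derivative in the `i`-th direction. -/
noncomputable def pd (i : Fin 4) (f : E4 → ℝ) (x : E4) : ℝ := fderiv ℝ f x (bv i)

/-- Christoffel symbols `Γ^k_{ij}` of the metric with coefficients `g`. -/
noncomputable def chr (g : Met) (k i j : Fin 4) (x : E4) : ℝ :=
  (1 / 2) * ∑ l, (g x)⁻¹ k l *
    (pd i (fun y => g y l j) x + pd j (fun y => g y l i) x - pd l (fun y => g y i j) x)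

/-- Coefficients of the Ricci tensor of the metric with coefficients `g`:
`R_ij = ∂_k Γ^k_ij - ∂_j Γ^k_ik + Γ^k_kl Γ^l_ij - Γ^k_jl Γ^l_ik`. -/
noncomputable def ric (g : Met) (i j : Fin 4) (x : E4) : ℝ :=
  ∑ k, (pd k (chr g k i j) x - pd j (chr g k i k) x) +
    ∑ k, ∑ l, (chr g k k l x * chr g l i j x - chr g k j l x * chr g l i k x)

/-- The quadratic form with coefficients `a`. -/
def qf (a : Matrix (Fin 4) (Fin 4) ℝ) (v : E4) : ℝ := ∑ i, ∑ j, a i j * v i * v j

/-- The Ricci tensor of `g` at `x` as a quadratic form. -/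
noncomputable def ricq (g : Met) (x v : E4) : ℝ := ∑ i, ∑ j, ric g i j x * v i * v j

section Riemannian

variable (M : Type) [MetricSpace M] [ChartedSpace E4 M] [IsManifold 𝓘(ℝ, E4) ∞ M]

/-- The coefficients of a Riemannian metric in the chart at `x`. -/
noncomputable def chartMet
    (G : ContMDiffRiemannianMetric 𝓘(ℝ, E4) ∞ E4 (fun p : M => TangentSpace 𝓘(ℝ, E4) p)) (x : M) :
    Met := fun y => Matrix.of fun i j =>
  G.inner ((extChartAt 𝓘(ℝ, E4) x).symm y)
    (mfderiv 𝓘(ℝ, E4) 𝓘(ℝ, E4) (extChartAt 𝓘(ℝ, E4) x).symm y (bv i))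
    (mfderiv 𝓘(ℝ, E4) 𝓘(ℝ, E4) (extChartAt 𝓘(ℝ, E4) x).symm y (bv j))

end Riemannian

/-- `M` is (with its distance) a complete smooth Riemannian four-manifold whose Ricci curvature is
bounded below by `κ`: there are a smooth manifold structure and a smooth Riemannian metric `G`
on `M` such that the distance of `M` is the Riemannian distance of `G`, `M` is complete, and
`Ric ≥ κ G` at every point (computed in the chart at this point). -/
def IsCompleteRicciGE (M : Type) [MetricSpace M] (κ : ℝ) : Prop :=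
  CompleteSpace M ∧
  ∃ (_ : ChartedSpace E4 M) (_ : IsManifold 𝓘(ℝ, E4) ∞ M)
    (G : ContMDiffRiemannianMetric 𝓘(ℝ, E4) ∞ E4 (fun p : M => TangentSpace 𝓘(ℝ, E4) p)),
    (letI : RiemannianBundle (fun p : M => TangentSpace 𝓘(ℝ, E4) p) := ⟨G.toRiemannianMetric⟩
     IsRiemannianManifold 𝓘(ℝ, E4) M) ∧
    ∀ (x : M) (v : E4), κ * qf (chartMet M G x (extChartAt 𝓘(ℝ, E4) x x)) v ≤
      ricq (chartMet M G x) (extChartAt 𝓘(ℝ, E4) x x) v

/-- The four-dimensional volume of a subset of a metric space: the four-dimensional Hausdorff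
measure. On a Riemannian four-manifold it is the Riemannian volume up to a universal constant
factor (the normalisation of the Hausdorff measure). -/
noncomputable def vol4 (M : Type) [MetricSpace M] (A : Set M) : ℝ≥0∞ :=
  letI : MeasurableSpace M := borel M
  haveI : BorelSpace M := ⟨rfl⟩
  MeasureTheory.Measure.hausdorffMeasure 4 A

/-- Pointed Gromov-Hausdorff convergence of `(X n, d n, p n)` to `(Y, D, y)` (Burago, Burago,
Ivanov, Definition 8.1.1), for distance functions `d n` and `D`. -/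
def PGH {X : ℕ → Type} (d : ∀ n, X n → X n → ℝ) (p : ∀ n, X n) {Y : Type} (D : Y → Y → ℝ)
    (y : Y) : Prop :=
  ∀ r > (0 : ℝ), ∀ ε > (0 : ℝ), ∃ n₀ : ℕ, ∀ n ≥ n₀, ∃ f : X n → Y,
    f (p n) = y ∧
    (∀ a b, d n a (p n) < r → d n b (p n) < r → |D (f a) (f b) - d n a b| < ε) ∧
    ∀ z, D z y < r - ε → ∃ a, d n a (p n) < r ∧ D z (f a) < ε

/-- `X` is a noncollapsed four-dimensional Ricci limit space: the pointed Gromov-Hausdorff limit
of complete Riemannian four-manifolds `(M i, p i)` with `Ric ≥ -3` and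
`vol (B (p i) 1) ≥ v > 0`. -/
def IsRicciLimit4 (X : Type) [MetricSpace X] : Prop :=
  CompleteSpace X ∧
  ∃ (M : ℕ → Type) (_ : ∀ i, MetricSpace (M i)) (p : ∀ i, M i) (x₀ : X) (v : ℝ), 0 < v ∧
    (∀ i, IsCompleteRicciGE (M i) (-3)) ∧
    (∀ i, ENNReal.ofReal v ≤ vol4 (M i) (Metric.ball (p i) 1)) ∧
    PGH (fun i => (dist : M i → M i → ℝ)) p (dist : X → X → ℝ) x₀

/-- The distance of the metric cone over `Z` (points `(z, s)`, where `s ≥ 0` is the distance to
the tip). -/
noncomputable def coneDist {Z : Type} [MetricSpace Z] (a b : Z × NNReal) : ℝ :=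
  Real.sqrt ((a.2 : ℝ) ^ 2 + (b.2 : ℝ) ^ 2 - 2 * a.2 * b.2 * Real.cos (dist a.1 b.1))

/-- The compact metric space `Z` (of diameter at most `π`) is the cross-section of some tangent
cone of `X` at `x`: the metric cone over `Z` is the pointed Gromov-Hausdorff limit of
`(X, (r n)⁻¹ d, x)` for a sequence `r n → 0`. -/
def IsCrossSection (X : Type) [MetricSpace X] (x : X) (Z : Type) [MetricSpace Z] : Prop :=
  CompactSpace Z ∧ (∀ a b : Z, dist a b ≤ Real.pi) ∧
  ∃ r : ℕ → ℝ, (∀ n, 0 < r n) ∧ Tendsto r atTop (𝓝 0) ∧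
    ∃ z₀ : Z, PGH (fun n (a b : X) => dist a b / r n) (fun _ => x) (coneDist (Z := Z)) (z₀, 0)

/-- The set of points of `X` at which the cross-section of some tangent cone is not homeomorphic
to the three-sphere. -/
def badSet (X : Type) [MetricSpace X] : Set X :=
  {x | ∃ (Z : Type) (_ : MetricSpace Z), IsCrossSection X x Z ∧
    IsEmpty (Z ≃ₜ Metric.sphere (0 : E4) 1)}

/-- The negation of the question: there is a noncollapsed four-dimensional Ricci limit space `X`
with a point `x` of the bad set which is an accumulation point of the bad set. -/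
def NotDiscrete : Prop :=
  ∃ (X : Type) (_ : MetricSpace X), IsRicciLimit4 X ∧
    ∃ x ∈ badSet X, ∀ U ∈ 𝓝 x, ∃ y ∈ U, y ≠ x ∧ y ∈ badSet X

end Pool.Agent.W_MP_654ec6
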